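import Pool.Agent.Lib.MP_dacecb_an.LogMain

namespace Pool.Agent.Lib.MP_dacecb_an.Old.LogLine

open MeasureTheory FourierTransform
open scoped ENNReal NNReal

/-- Complex `L²(ℝ)` for Lebesgue measure. -/
abbrev L2 : Type := Lp ℂ 2 (volume : Measure ℝ)

theorem memLp_phase (τ : ℝ) (g : L2) :
    MemLp (fun ξ : ℝ => Complex.exp (-Complex.I * (τ * ξ ^ 2 : ℝ)) * g ξ) 2 volume :=
  MemLp.of_le (Lp.memLp g) ((Continuous.aestronglyMeasurable (by fun_prop)).mul (Lp.memLp g).1)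
    (Filter.Eventually.of_forall fun ξ => by
      rw [norm_mul, neg_mul, mul_comm Complex.I, ← neg_mul, ← Complex.ofReal_neg,
        Complex.norm_exp_ofReal_mul_I, one_mul])

/-- Multiplication of an `L²` function by `exp (-i τ ξ²)`. -/
noncomputable def phase (τ : ℝ) (g : L2) : L2 :=
  (memLp_phase τ g).toLp fun ξ : ℝ => Complex.exp (-Complex.I * (τ * ξ ^ 2 : ℝ)) * g ξ

/-- The free propagator on `L²(ℝ)`: the Fourier multiplier with symbol `exp (-i τ ξ²)`.
With the Fourier convention of Mathlib, `τ = 4π² t` gives `exp (i t Δ)`. -/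
noncomputable def propagator (τ : ℝ) (f : L2) : L2 :=
  𝓕⁻ (phase τ (𝓕 f : L2) : L2)

section

variable {ι : Type}

/-- Orthonormal systems in `L²(ℝ)`. -/
def IsONS (f : ι → L2) : Prop := Orthonormal ℂ f

/-- The density `∑ |lam j| |u j|²`. -/
noncomputable def density (lam : ι → ℂ) (u : ι → L2) (x : ℝ) : ℝ≥0∞ :=
  ∑' j, ‖lam j‖ₑ * ‖u j x‖ₑ ^ 2

/-- The mixed norm `L^p_t L^q_x`. -/
noncomputable def mixedNorm (p q : ℝ≥0∞) (F : ℝ → ℝ → ℝ≥0∞) : ℝ≥0∞ :=
  eLpNorm (fun t : ℝ => eLpNorm (F t) q volume) p volume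

/-- The decreasing rearrangement of `|lam j|`, indexed from `0`. -/
noncomputable def rearr (lam : ι → ℂ) (n : ℕ) : ℝ≥0∞ :=
  sInf {s : ℝ≥0∞ | {j | s < ‖lam j‖ₑ}.encard ≤ n}

/-- The norm `ℓ^{2,1}` with a square-root logarithmic weight. -/
noncomputable def logNorm (lam : ι → ℂ) : ℝ≥0∞ :=
  ∑' n : ℕ, ENNReal.ofReal √((1 + Real.log ((n : ℝ) + 1)) / ((n : ℝ) + 1)) * rearr lam n

end

theorem result (κ : ℝ) (hκ : 0 < κ) (ι : Type) [Countable ι] (f : ι → L2) (lam : ι → ℂ)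
    (hf : IsONS f) :
    mixedNorm 2 ⊤ (fun t => density lam fun j => propagator (κ * t) (f j)) ≤
      ENNReal.ofReal (11 * √(Real.pi / κ)) * logNorm lam := by
  have h := Pool.Agent.Lib.MP_dacecb_an.main_log (E := ℝ) (by simp) κ hκ f hf
    (fun t j => propagator (κ * t) (f j)) (fun t j => by
      rw [propagator, fourier_fourierInv_eq]
      filter_upwards [(memLp_phase (κ * t) (𝓕 (f j))).coeFn_toLp] with ξ hξ
      rw [phase, hξ, Pool.Agent.Lib.MP_dacecb_an.ph, ← sq_abs ξ, ← Real.norm_eq_abs]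
      congr 2
      push_cast
      ring) lam _ (Pool.Agent.Lib.MP_dacecb_an.rearr_le lam)
  unfold mixedNorm density
  rw [eLpNorm_eq_lintegral_rpow_enorm_toReal two_ne_zero ENNReal.ofNat_ne_top]
  simp only [eLpNorm_exponent_top, eLpNormEssSup_eq_essSup_enorm, enorm_eq_self,
    ENNReal.toReal_ofNat, ENNReal.rpow_two]
  rw [one_div, ENNReal.rpow_inv_le_iff two_pos, ENNReal.rpow_two]
  exact h

end Pool.Agent.Lib.MP_dacecb_an.Old.LogLine
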